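import Mathlib

set_option autoImplicit false

open Filter Topology MeasureTheory Complex Set
open scoped ComplexConjugate

namespace Pool.Agent.Y767.PI

/-- `Δ_0 = 1` and `Δ_k = k ∫_0^∞ ω(t) t^{k-1} dt` for `k ≥ 1`. -/
noncomputable def Delta (ω : ℝ → ℝ) (k : ℕ) : ℝ :=
  if k = 0 then 1 else k * ∫ t in Set.Ioi (0 : ℝ), ω t * t ^ (k - 1)

/-- `L(r) = ∫_r^∞ ω(t) t⁻¹ dt`. -/
noncomputable def Lfun (ω : ℝ → ℝ) (r : ℝ) : ℝ := ∫ t in Set.Ioi r, ω t * t⁻¹

/-- `I_k(r) = ∫_0^r ω(t) t^{k-1} dt`. -/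
noncomputable def Ifun (ω : ℝ → ℝ) (k : ℕ) (r : ℝ) : ℝ := ∫ t in Set.Ioc 0 r, ω t * t ^ (k - 1)

/-- `J_k(r) = ∫_r^∞ ω(t) t^{-k-1} dt`. -/
noncomputable def Jfun (ω : ℝ → ℝ) (k : ℕ) (r : ℝ) : ℝ := ∫ t in Set.Ioi r, ω t * (t ^ (k + 1))⁻¹

/-- The `k`-th term (`k ≥ 1`) of the series in the definition of `W_ω(z; a)`, in which `J_k(|a|)`
carries the factor `(conj a)^{s k}`. The problem's factor is `s = -1`. -/
noncomputable def Wterm (s : ℤ) (ω : ℝ → ℝ) (z a : ℂ) (k : ℕ) : ℂ :=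
  ((a ^ k)⁻¹ * (Ifun ω k ‖a‖ : ℝ) - (conj a) ^ (s * (k : ℤ)) * (Jfun ω k ‖a‖ : ℝ)) *
    (z ^ k / (Delta ω k : ℝ))

/-- `W_ω(z; a) = L(|a|) - ∑_{k ≥ 1} (a^{-k} I_k(|a|) - (conj a)^{s k} J_k(|a|)) z^k / Δ_k`. -/
noncomputable def W (s : ℤ) (ω : ℝ → ℝ) (z a : ℂ) : ℂ :=
  (Lfun ω ‖a‖ : ℝ) - ∑' k : ℕ, Wterm s ω z a (k + 1)

/-- `A_ω(z; a) = (1 - z/a) exp(-W_ω(z; a))`. -/
noncomputable def A (s : ℤ) (ω : ℝ → ℝ) (z a : ℂ) : ℂ := (1 - z / a) * Complex.exp (-W s ω z a)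

/-- The comparison condition with constant `C` beyond `t₀`: `ω(bx) ω(a) ≤ C ω(b) ω(ax)` whenever
`t₀ < a ≤ b` and `x ≥ 1`, that is `ω(bx)/ω(b) ≤ C ω(ax)/ω(a)`. -/
def RatioBound (ω : ℝ → ℝ) (t₀ C : ℝ) : Prop :=
  ∀ a b x : ℝ, t₀ < a → a ≤ b → 1 ≤ x → ω (b * x) * ω a ≤ C * (ω b * ω (a * x))

lemma RatioBound.one_le {ω : ℝ → ℝ} {t₀ C : ℝ} (hpos : ∀ t, 0 ≤ t → 0 < ω t) (ht₀ : 0 ≤ t₀)
    (h : RatioBound ω t₀ C) : 1 ≤ C := by
  have h1 := h (t₀ + 1) (t₀ + 1) 1 (by linarith) le_rfl le_rfl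
  rw [mul_one] at h1
  have h2 := hpos (t₀ + 1) (by linarith)
  have h3 : 0 < ω (t₀ + 1) * ω (t₀ + 1) := by positivity
  by_contra hc
  push Not at hc
  nlinarith

/-- Auxiliary tail moments `∫_r^∞ ω(t) t^j t⁻¹ dt`. -/
noncomputable def T (ω : ℝ → ℝ) (j : ℕ) (r : ℝ) : ℝ := ∫ t in Set.Ioi r, ω t * t ^ j * t⁻¹

section aux

variable {ω : ℝ → ℝ}

lemma intMom (hmom : ∀ k : ℕ, 1 ≤ k → IntegrableOn (fun t => ω t * t ^ (k - 1)) (Ioi 0)) (j : ℕ) :
    IntegrableOn (fun t => ω t * t ^ j) (Ioi 0) := by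
  simpa using hmom (j + 1) (by omega)

lemma measT (hcont : ContinuousOn ω (Ici 0)) (j : ℕ) {r : ℝ} (hr : 0 < r) :
    ContinuousOn (fun t => ω t * t ^ j * t⁻¹) (Ici r) := by
  have h1 : ContinuousOn ω (Ici r) := hcont.mono (Ici_subset_Ici.mpr hr.le)
  apply ContinuousOn.mul
  · exact h1.mul (continuousOn_id.pow j)
  · apply continuousOn_id.inv₀
    intro t ht
    exact ne_of_gt (lt_of_lt_of_le hr ht)

lemma intT (hcont : ContinuousOn ω (Ici 0)) (hpos : ∀ t, 0 ≤ t → 0 < ω t)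
    (hmom : ∀ k : ℕ, 1 ≤ k → IntegrableOn (fun t => ω t * t ^ (k - 1)) (Ioi 0)) (j : ℕ)
    {r : ℝ} (hr : 0 < r) : IntegrableOn (fun t => ω t * t ^ j * t⁻¹) (Ioi r) := by
  have h := ((intMom hmom j).mono_set (Ioi_subset_Ioi hr.le)).mul_const r⁻¹
  refine Integrable.mono' h ?_ ?_
  · exact ((measT hcont j hr).mono Ioi_subset_Ici_self).aestronglyMeasurable measurableSet_Ioi
  · filter_upwards [ae_restrict_mem measurableSet_Ioi] with t ht
    have ht0 : 0 < t := lt_trans hr ht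
    have := hpos t ht0.le
    rw [Real.norm_of_nonneg (by positivity)]
    apply mul_le_mul_of_nonneg_left _ (by positivity)
    exact inv_anti₀ hr (le_of_lt ht)

lemma T_zero (r : ℝ) : T ω 0 r = Lfun ω r := by
  unfold T Lfun
  simp

lemma T_pos (hcont : ContinuousOn ω (Ici 0)) (hpos : ∀ t, 0 ≤ t → 0 < ω t)
    (hmom : ∀ k : ℕ, 1 ≤ k → IntegrableOn (fun t => ω t * t ^ (k - 1)) (Ioi 0)) (j : ℕ)
    {r : ℝ} (hr : 0 < r) : 0 < T ω j r := by
  unfold T
  rw [setIntegral_pos_iff_support_of_nonneg_ae]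
  · have : Function.support (fun t => ω t * t ^ j * t⁻¹) ∩ Ioi r = Ioi r := by
      apply inter_eq_right.mpr
      intro t ht
      have ht0 : 0 < t := lt_trans hr ht
      have := hpos t ht0.le
      rw [Function.mem_support]
      positivity
    rw [this, Real.volume_Ioi]
    exact ENNReal.zero_lt_top
  · filter_upwards [ae_restrict_mem measurableSet_Ioi] with t ht
    have ht0 : 0 < t := lt_trans hr ht
    have := hpos t ht0.le
    simp only [Pi.zero_apply]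
    positivity
  · exact intT hcont hpos hmom j hr

/-- The comparison inequality that follows from the monotonicity of `t ω'(t) / ω(t)`. -/
lemma compare (hpos : ∀ t, 0 ≤ t → 0 < ω t) {t₀ : ℝ} (ht₀ : 0 ≤ t₀)
    (hdiff : ∀ t, t₀ < t → DifferentiableAt ℝ ω t)
    (hmono : AntitoneOn (fun t => t * deriv ω t / ω t) (Ioi t₀))
    {a b x : ℝ} (ha : t₀ < a) (hab : a ≤ b) (hx : 1 ≤ x) :
    ω (b * x) * ω a ≤ ω b * ω (a * x) := by
  have ha0 : 0 < a := lt_of_le_of_lt ht₀ ha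
  have hb0 : 0 < b := lt_of_lt_of_le ha0 hab
  have hder : ∀ c : ℝ, t₀ < c → ∀ y : ℝ, 1 ≤ y →
      HasDerivAt (fun y => Real.log (ω (c * y))) (c * deriv ω (c * y) / ω (c * y)) y := by
    intro c hc y hy
    have hc0 : 0 < c := lt_of_le_of_lt ht₀ hc
    have h1 : t₀ < c * y := by nlinarith
    have h2 : HasDerivAt ω (deriv ω (c * y)) (c * y) := (hdiff _ h1).hasDerivAt
    have h3 : HasDerivAt (fun y => c * y) c y := by
      simpa using (hasDerivAt_id y).const_mul c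
    have h4 := h2.comp y h3
    have h5 := h4.log (ne_of_gt (hpos _ (by positivity)))
    simp only [Function.comp_def] at h5
    rw [mul_comm (deriv ω (c * y)) c] at h5
    exact h5
  have hF : AntitoneOn (fun y => Real.log (ω (b * y)) - Real.log (ω (a * y))) (Ici 1) := by
    apply antitoneOn_of_deriv_nonpos (convex_Ici 1)
    · intro y hy
      exact ((hder b (lt_of_lt_of_le ha hab) y hy).sub (hder a ha y hy)).continuousAt.continuousWithinAt
    · intro y hy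
      rw [interior_Ici] at hy
      exact ((hder b (lt_of_lt_of_le ha hab) y (le_of_lt hy)).sub
        (hder a ha y (le_of_lt hy))).differentiableAt.differentiableWithinAt
    · intro y hy
      rw [interior_Ici] at hy
      have hy1 : 1 < y := hy
      have hy0 : 0 < y := by linarith
      rw [((hder b (lt_of_lt_of_le ha hab) y hy1.le).fun_sub (hder a ha y hy1.le)).deriv]
      have h1 : t₀ < a * y := by nlinarith
      have h2 : a * y ≤ b * y := by nlinarith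
      have h3 := hmono (mem_Ioi.mpr h1) (mem_Ioi.mpr (lt_of_lt_of_le h1 h2)) h2
      simp only at h3
      have h4 : ∀ c : ℝ, c * deriv ω (c * y) / ω (c * y) =
          (c * y * deriv ω (c * y) / ω (c * y)) / y := by
        intro c
        field_simp
      rw [h4 b, h4 a, ← sub_div]
      exact div_nonpos_of_nonpos_of_nonneg (by linarith) hy0.le
  have h1 := hF (mem_Ici.mpr le_rfl) (mem_Ici.mpr hx) hx
  simp only [mul_one] at h1
  have hbx := hpos (b * x) (by positivity)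
  have hax := hpos (a * x) (by positivity)
  have hb' := hpos b hb0.le
  have ha' := hpos a ha0.le
  have h2 : Real.log (ω (b * x) * ω a) ≤ Real.log (ω b * ω (a * x)) := by
    rw [Real.log_mul hbx.ne' ha'.ne', Real.log_mul hb'.ne' hax.ne']
    linarith
  exact (Real.log_le_log_iff (by positivity) (by positivity)).mp h2

lemma T_scale (hcont : ContinuousOn ω (Ici 0)) (hpos : ∀ t, 0 ≤ t → 0 < ω t)
    (hmom : ∀ k : ℕ, 1 ≤ k → IntegrableOn (fun t => ω t * t ^ (k - 1)) (Ioi 0))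
    {t₀ : ℝ} (ht₀ : 0 ≤ t₀)
    {C : ℝ} (hC : RatioBound ω t₀ C) (j : ℕ)
    {a b : ℝ} (ha : t₀ < a) (hab : a ≤ b) :
    T ω j b * (ω a * a ^ j) ≤ C * (ω b * b ^ j * T ω j a) := by
  have ha0 : 0 < a := lt_of_le_of_lt ht₀ ha
  have hb0 : 0 < b := lt_of_lt_of_le ha0 hab
  set c : ℝ := b / a with hc
  have hc0 : 0 < c := by positivity
  have hca : c * a = b := by rw [hc]; field_simp
  have h1 : T ω j b = ∫ x in Ioi a, c * (ω (c * x) * (c * x) ^ j * (c * x)⁻¹) := by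
    unfold T
    rw [integral_const_mul, integral_comp_mul_left_Ioi (fun t => ω t * t ^ j * t⁻¹) a hc0, hca,
      smul_eq_mul, ← mul_assoc, mul_inv_cancel₀ hc0.ne', one_mul]
  have hint : IntegrableOn (fun x => c * (ω (c * x) * (c * x) ^ j * (c * x)⁻¹)) (Ioi a) := by
    apply Integrable.const_mul
    have := (integrableOn_Ioi_comp_mul_left_iff (fun t => ω t * t ^ j * t⁻¹) a hc0).mpr
      (by rw [hca]; exact intT hcont hpos hmom j hb0)
    exact this
  have h2 : T ω j b * ω a ≤ C * (c ^ j * ω b) * T ω j a := by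
    rw [h1, ← integral_mul_const]
    unfold T
    rw [← integral_const_mul]
    apply setIntegral_mono_on
    · exact hint.mul_const _
    · exact (intT hcont hpos hmom j ha0).const_mul _
    · exact measurableSet_Ioi
    · intro x hx
      have hx' : a < x := hx
      have hx0 : 0 < x := lt_trans ha0 hx'
      have hy : 1 ≤ x / a := by rw [le_div_iff₀ ha0]; linarith
      have h3 := hC a b (x / a) ha hab hy
      have h4 : b * (x / a) = c * x := by rw [hc]; ring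
      have h5 : a * (x / a) = x := by field_simp
      rw [h4, h5] at h3
      have h6 : c * (ω (c * x) * (c * x) ^ j * (c * x)⁻¹) * ω a =
          (ω (c * x) * ω a) * (c ^ j * x ^ j * x⁻¹) := by
        rw [mul_pow]
        field_simp
      rw [h6]
      calc (ω (c * x) * ω a) * (c ^ j * x ^ j * x⁻¹) ≤
            (C * (ω b * ω x)) * (c ^ j * x ^ j * x⁻¹) := by
            apply mul_le_mul_of_nonneg_right h3 (by positivity)
        _ = C * (c ^ j * ω b) * (ω x * x ^ j * x⁻¹) := by ring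
  have h7 : c ^ j * a ^ j = b ^ j := by rw [← mul_pow, hca]
  calc T ω j b * (ω a * a ^ j) = (T ω j b * ω a) * a ^ j := by ring
    _ ≤ (C * (c ^ j * ω b) * T ω j a) * a ^ j := by
        apply mul_le_mul_of_nonneg_right h2 (by positivity)
    _ = C * (ω b * (c ^ j * a ^ j) * T ω j a) := by ring
    _ = C * (ω b * b ^ j * T ω j a) := by rw [h7]

/-- Step 2: `ω(r) T_k(r) ≤ T_0(r) (ω(r) r^k + C k T_k(r))`. -/
lemma step2 (hcont : ContinuousOn ω (Ici 0)) (hpos : ∀ t, 0 ≤ t → 0 < ω t)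
    (hmom : ∀ k : ℕ, 1 ≤ k → IntegrableOn (fun t => ω t * t ^ (k - 1)) (Ioi 0))
    {t₀ : ℝ} (ht₀ : 0 ≤ t₀)
    {C : ℝ} (hC : RatioBound ω t₀ C) (k : ℕ)
    {r : ℝ} (hr : t₀ < r) :
    ω r * T ω (k + 1) r ≤ T ω 0 r * (ω r * r ^ (k + 1) + C * (k + 1) * T ω (k + 1) r) := by
  have hr0 : 0 < r := lt_of_le_of_lt ht₀ hr
  -- truncated versions
  set U : ℝ → ℝ := fun s => ∫ t in r..s, ω t * t ^ (k + 1) * t⁻¹ with hU
  set V : ℝ → ℝ := fun s => ∫ t in r..s, ω t * t ^ 0 * t⁻¹ with hV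
  have hcj : ∀ (j : ℕ) (s : ℝ), r ≤ s → IntervalIntegrable (fun t => ω t * t ^ j * t⁻¹) volume r s := by
    intro j s hs
    apply ContinuousOn.intervalIntegrable
    apply (measT hcont j hr0).mono
    rw [uIcc_of_le hs]
    exact Icc_subset_Ici_self
  have hder : ∀ (j : ℕ) (s : ℝ), r < s →
      HasDerivAt (fun s => ∫ t in r..s, ω t * t ^ j * t⁻¹) (ω s * s ^ j * s⁻¹) s := by
    intro j s hs
    apply intervalIntegral.integral_hasDerivAt_right (hcj j s hs.le)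
    · have h1 : ContinuousOn (fun t => ω t * t ^ j * t⁻¹) (Ioi r) :=
        (measT hcont j hr0).mono Ioi_subset_Ici_self
      exact h1.stronglyMeasurableAtFilter isOpen_Ioi s hs
    · exact (measT hcont j hr0).continuousAt (Ici_mem_nhds hs)
  have hT0 : ∀ s, r ≤ s → T ω 0 s = T ω 0 r - V s := by
    intro s hs
    have h1 := intervalIntegral.integral_interval_add_Ioi (f := fun t => ω t * t ^ 0 * t⁻¹)
      (μ := volume) (a := r) (b := s) (intT hcont hpos hmom 0 hr0)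
      (intT hcont hpos hmom 0 (lt_of_lt_of_le hr0 hs))
    simp only [hV, T]
    linarith
  set D : ℝ → ℝ := fun s => T ω 0 r * (ω r * r ^ (k + 1) + C * (k + 1) * U s) - ω r * U s -
    ω r * s ^ (k + 1) * (T ω 0 r - V s) with hD
  have hDder : ∀ s, r < s → HasDerivAt D (T ω 0 r * (C * (k + 1) * (ω s * s ^ (k + 1) * s⁻¹)) -
      ω r * (ω s * s ^ (k + 1) * s⁻¹) - (ω r * ((k + 1 : ℕ) * s ^ k) * (T ω 0 r - V s) +
      ω r * s ^ (k + 1) * (-(ω s * s ^ 0 * s⁻¹)))) s := by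
    intro s hs
    have hU' := hder (k + 1) s hs
    have hV' := hder 0 s hs
    have h1 : HasDerivAt (fun s => T ω 0 r * (ω r * r ^ (k + 1) + C * (k + 1) * U s))
        (T ω 0 r * (C * (k + 1) * (ω s * s ^ (k + 1) * s⁻¹))) s :=
      ((hU'.const_mul (C * ((k : ℝ) + 1))).const_add (ω r * r ^ (k + 1))).const_mul (T ω 0 r)
    have h2 : HasDerivAt (fun s => ω r * U s) (ω r * (ω s * s ^ (k + 1) * s⁻¹)) s :=
      hU'.const_mul _
    have h3 : HasDerivAt (fun s : ℝ => ω r * s ^ (k + 1)) (ω r * ((k + 1 : ℕ) * s ^ k)) s := by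
      have := (hasDerivAt_pow (k + 1) s).const_mul (ω r)
      simpa using this
    have h4 : HasDerivAt (fun s => T ω 0 r - V s) (-(ω s * s ^ 0 * s⁻¹)) s := by
      exact hV'.const_sub (T ω 0 r)
    exact (h1.sub h2).sub (h3.mul h4)
  have hDmono : MonotoneOn D (Ici r) := by
    apply monotoneOn_of_deriv_nonneg (convex_Ici r)
    · have hUc : ContinuousOn U (Ici r) := by
        intro s hs
        have hs' : r ≤ s := hs
        have h1 := intervalIntegral.continuousOn_primitive_interval' (a := r)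
          (hcj (k + 1) (s + 1) (by linarith)) (left_mem_uIcc)
        have h2 : ContinuousWithinAt U (uIcc r (s + 1)) s :=
          h1 s (by rw [uIcc_of_le (by linarith)]; exact ⟨hs', by linarith⟩)
        apply h2.mono_of_mem_nhdsWithin
        rw [uIcc_of_le (by linarith)]
        have : Ici r ∩ Iio (s + 1) ∈ 𝓝[Ici r] s :=
          inter_mem self_mem_nhdsWithin (mem_nhdsWithin_of_mem_nhds (Iio_mem_nhds (by linarith)))
        exact mem_of_superset this (fun y hy => ⟨hy.1, le_of_lt hy.2⟩)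
      have hVc : ContinuousOn V (Ici r) := by
        intro s hs
        have hs' : r ≤ s := hs
        have h1 := intervalIntegral.continuousOn_primitive_interval' (a := r)
          (hcj 0 (s + 1) (by linarith)) (left_mem_uIcc)
        have h2 : ContinuousWithinAt V (uIcc r (s + 1)) s :=
          h1 s (by rw [uIcc_of_le (by linarith)]; exact ⟨hs', by linarith⟩)
        apply h2.mono_of_mem_nhdsWithin
        rw [uIcc_of_le (by linarith)]
        have : Ici r ∩ Iio (s + 1) ∈ 𝓝[Ici r] s :=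
          inter_mem self_mem_nhdsWithin (mem_nhdsWithin_of_mem_nhds (Iio_mem_nhds (by linarith)))
        exact mem_of_superset this (fun y hy => ⟨hy.1, le_of_lt hy.2⟩)
      simp only [hD]
      fun_prop
    · intro s hs
      rw [interior_Ici] at hs
      exact (hDder s hs).differentiableAt.differentiableWithinAt
    · intro s hs
      rw [interior_Ici] at hs
      have hs' : r < s := hs
      have hs0 : 0 < s := lt_trans hr0 hs'
      rw [(hDder s hs').deriv, ← hT0 s hs'.le]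
      have h1 := T_scale hcont hpos hmom ht₀ hC 0 hr hs'.le
      simp only [pow_zero, mul_one] at h1
      have h2 : T ω 0 r * (C * (k + 1) * (ω s * s ^ (k + 1) * s⁻¹)) -
          ω r * (ω s * s ^ (k + 1) * s⁻¹) - (ω r * ((k + 1 : ℕ) * s ^ k) * T ω 0 s +
          ω r * s ^ (k + 1) * (-(ω s * s ^ 0 * s⁻¹))) =
          (k + 1) * s ^ k * (C * (ω s * T ω 0 r) - T ω 0 s * ω r) := by
        push_cast
        field_simp
        ring
      rw [h2]
      apply mul_nonneg (by positivity)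
      linarith
  have hDr : D r = 0 := by
    simp only [hD, hU, hV, intervalIntegral.integral_same]
    ring
  have hDnonneg : ∀ s, r ≤ s → 0 ≤ D s := by
    intro s hs
    rw [← hDr]
    exact hDmono (mem_Ici.mpr le_rfl) (mem_Ici.mpr hs) hs
  have hlimU : Tendsto U atTop (𝓝 (T ω (k + 1) r)) :=
    intervalIntegral_tendsto_integral_Ioi r (intT hcont hpos hmom (k + 1) hr0) tendsto_id
  have hle : ∀ s, r ≤ s → ω r * U s ≤ T ω 0 r * (ω r * r ^ (k + 1) + C * (k + 1) * U s) := by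
    intro s hs
    have h1 := hDnonneg s hs
    simp only [hD] at h1
    rw [← hT0 s hs] at h1
    have h2 : 0 ≤ ω r * s ^ (k + 1) * T ω 0 s := by
      have := T_pos hcont hpos hmom 0 (lt_of_lt_of_le hr0 hs)
      have h3 := hpos r hr0.le
      have h4 : 0 < s := lt_of_lt_of_le hr0 hs
      positivity
    linarith
  refine le_of_tendsto_of_tendsto (hlimU.const_mul (ω r))
    (((hlimU.const_mul (C * ((k : ℝ) + 1))).const_add (ω r * r ^ (k + 1))).const_mul (T ω 0 r)) ?_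
  filter_upwards [eventually_ge_atTop r] with s hs using hle s hs

/-- Lower bound `Δ_k ≥ λ^k ω(λ) + k T_k(λ)`. -/
lemma Delta_ge (hanti : AntitoneOn ω (Ici 0))
    (hmom : ∀ k : ℕ, 1 ≤ k → IntegrableOn (fun t => ω t * t ^ (k - 1)) (Ioi 0)) (k : ℕ)
    {l : ℝ} (hl : 0 < l) :
    l ^ (k + 1) * ω l + (k + 1) * T ω (k + 1) l ≤ Delta ω (k + 1) := by
  have h1 : Delta ω (k + 1) = (k + 1) * ∫ t in Ioi (0 : ℝ), ω t * t ^ k := by
    unfold Delta
    simp
  have h2 : ∫ t in Ioi (0 : ℝ), ω t * t ^ k =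
      (∫ t in Ioc 0 l, ω t * t ^ k) + ∫ t in Ioi l, ω t * t ^ k := by
    rw [← Ioc_union_Ioi_eq_Ioi hl.le]
    apply setIntegral_union
    · exact Ioc_disjoint_Ioi le_rfl
    · exact measurableSet_Ioi
    · exact (intMom hmom k).mono_set Ioc_subset_Ioi_self
    · exact (intMom hmom k).mono_set (Ioi_subset_Ioi hl.le)
  have h3 : ∫ t in Ioi l, ω t * t ^ k = T ω (k + 1) l := by
    unfold T
    apply setIntegral_congr_fun measurableSet_Ioi
    intro t ht
    have ht0 : 0 < t := lt_trans hl ht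
    simp only
    rw [pow_succ]
    field_simp
  have h4 : ω l * (l ^ (k + 1) / (k + 1)) ≤ ∫ t in Ioc 0 l, ω t * t ^ k := by
    have h5 : ∫ t in Ioc 0 l, ω l * t ^ k = ω l * (l ^ (k + 1) / (k + 1)) := by
      rw [integral_const_mul, ← intervalIntegral.integral_of_le hl.le, integral_pow]
      simp
    rw [← h5]
    apply setIntegral_mono_on
    · apply Integrable.const_mul
      exact (continuous_pow k).integrableOn_Ioc
    · exact (intMom hmom k).mono_set Ioc_subset_Ioi_self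
    · exact measurableSet_Ioc
    · intro t ht
      apply mul_le_mul_of_nonneg_right _ (pow_nonneg ht.1.le k)
      exact hanti (mem_Ici.mpr ht.1.le) (mem_Ici.mpr hl.le) ht.2
  rw [h1, h2, h3, mul_add]
  have h6 : l ^ (k + 1) * ω l = (k + 1) * (ω l * (l ^ (k + 1) / (k + 1))) := by
    have : (k : ℝ) + 1 ≠ 0 := by positivity
    field_simp
  rw [h6]
  have h7 : (0 : ℝ) ≤ (k : ℝ) + 1 := by positivity
  nlinarith [mul_le_mul_of_nonneg_left h4 h7]

lemma Delta_pos (hcont : ContinuousOn ω (Ici 0)) (hanti : AntitoneOn ω (Ici 0))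
    (hpos : ∀ t, 0 ≤ t → 0 < ω t)
    (hmom : ∀ k : ℕ, 1 ≤ k → IntegrableOn (fun t => ω t * t ^ (k - 1)) (Ioi 0)) (k : ℕ) :
    0 < Delta ω (k + 1) := by
  have h1 := Delta_ge hanti hmom k (l := 1) one_pos
  have h2 := T_pos hcont hpos hmom (k + 1) (r := 1) one_pos
  have h3 := hpos 1 zero_le_one
  have h4 : (0 : ℝ) ≤ (k + 1) * T ω (k + 1) 1 := by positivity
  simp only [one_pow, one_mul] at h1
  linarith

lemma Delta_ge' (hcont : ContinuousOn ω (Ici 0)) (hanti : AntitoneOn ω (Ici 0))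
    (hpos : ∀ t, 0 ≤ t → 0 < ω t)
    (hmom : ∀ k : ℕ, 1 ≤ k → IntegrableOn (fun t => ω t * t ^ (k - 1)) (Ioi 0)) (k : ℕ)
    {l : ℝ} (hl : 0 < l) : l ^ (k + 1) * ω l ≤ Delta ω (k + 1) := by
  have h1 := Delta_ge hanti hmom k hl
  have h2 := T_pos hcont hpos hmom (k + 1) hl
  have h4 : (0 : ℝ) ≤ (k + 1) * T ω (k + 1) l := by positivity
  linarith

/-- The key inequality: `λ^k ω(λ) T_k(r) ≤ C² r^k Δ_k L(r)` for `t₀ < λ ≤ r`. -/
lemma key (hcont : ContinuousOn ω (Ici 0)) (hanti : AntitoneOn ω (Ici 0))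
    (hpos : ∀ t, 0 ≤ t → 0 < ω t)
    (hmom : ∀ k : ℕ, 1 ≤ k → IntegrableOn (fun t => ω t * t ^ (k - 1)) (Ioi 0))
    {t₀ : ℝ} (ht₀ : 0 ≤ t₀)
    {C : ℝ} (hC : RatioBound ω t₀ C) (k : ℕ)
    {l r : ℝ} (hl : t₀ < l) (hlr : l ≤ r) :
    l ^ (k + 1) * ω l * T ω (k + 1) r ≤ C ^ 2 * (r ^ (k + 1) * Delta ω (k + 1) * T ω 0 r) := by
  have hl0 : 0 < l := lt_of_le_of_lt ht₀ hl
  have hr0 : 0 < r := lt_of_lt_of_le hl0 hlr
  have h1 := Delta_ge hanti hmom k hl0
  have h2 := T_scale hcont hpos hmom ht₀ hC (k + 1) hl hlr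
  have h3 := step2 hcont hpos hmom ht₀ hC k (lt_of_lt_of_le hl hlr)
  have hωr := hpos r hr0.le
  have hωl := hpos l hl0.le
  have hT0 := T_pos hcont hpos hmom 0 hr0
  have hC1 : 1 ≤ C := hC.one_le hpos ht₀
  have hC2 : 1 ≤ C ^ 2 := one_le_pow₀ hC1
  have h4 : l ^ (k + 1) * ω l * (ω r * r ^ (k + 1) + C * (k + 1) * T ω (k + 1) r) ≤
      C ^ 2 * (ω r * r ^ (k + 1) * Delta ω (k + 1)) := by
    have h5 : C * (k + 1) * (T ω (k + 1) r * (ω l * l ^ (k + 1))) ≤
        C * (k + 1) * (C * (ω r * r ^ (k + 1) * T ω (k + 1) l)) :=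
      mul_le_mul_of_nonneg_left h2 (by positivity)
    have h6 : C ^ 2 * (ω r * r ^ (k + 1) * (l ^ (k + 1) * ω l + (k + 1) * T ω (k + 1) l)) ≤
        C ^ 2 * (ω r * r ^ (k + 1) * Delta ω (k + 1)) :=
      mul_le_mul_of_nonneg_left (mul_le_mul_of_nonneg_left h1 (by positivity)) (by positivity)
    have h8 : 1 * (ω r * r ^ (k + 1) * (l ^ (k + 1) * ω l)) ≤
        C ^ 2 * (ω r * r ^ (k + 1) * (l ^ (k + 1) * ω l)) :=
      mul_le_mul_of_nonneg_right hC2 (by positivity)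
    calc l ^ (k + 1) * ω l * (ω r * r ^ (k + 1) + C * (k + 1) * T ω (k + 1) r)
        = 1 * (ω r * r ^ (k + 1) * (l ^ (k + 1) * ω l)) +
          C * (k + 1) * (T ω (k + 1) r * (ω l * l ^ (k + 1))) := by ring
      _ ≤ C ^ 2 * (ω r * r ^ (k + 1) * (l ^ (k + 1) * ω l)) +
          C * (k + 1) * (C * (ω r * r ^ (k + 1) * T ω (k + 1) l)) := add_le_add h8 h5
      _ = C ^ 2 * (ω r * r ^ (k + 1) * (l ^ (k + 1) * ω l + (k + 1) * T ω (k + 1) l)) := by ring
      _ ≤ _ := h6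
  have h7 : ω r * (l ^ (k + 1) * ω l * T ω (k + 1) r) ≤
      ω r * (C ^ 2 * (r ^ (k + 1) * Delta ω (k + 1) * T ω 0 r)) := by
    calc ω r * (l ^ (k + 1) * ω l * T ω (k + 1) r) =
          (l ^ (k + 1) * ω l) * (ω r * T ω (k + 1) r) := by ring
      _ ≤ (l ^ (k + 1) * ω l) * (T ω 0 r * (ω r * r ^ (k + 1) + C * (k + 1) * T ω (k + 1) r)) :=
          mul_le_mul_of_nonneg_left h3 (by positivity)
      _ = T ω 0 r * (l ^ (k + 1) * ω l *
          (ω r * r ^ (k + 1) + C * (k + 1) * T ω (k + 1) r)) := by ring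
      _ ≤ T ω 0 r * (C ^ 2 * (ω r * r ^ (k + 1) * Delta ω (k + 1))) :=
          mul_le_mul_of_nonneg_left h4 hT0.le
      _ = _ := by ring
  exact le_of_mul_le_mul_left h7 hωr

lemma Delta_eq (hmom : ∀ k : ℕ, 1 ≤ k → IntegrableOn (fun t => ω t * t ^ (k - 1)) (Ioi 0)) (k : ℕ)
    {r : ℝ} (hr : 0 < r) :
    Delta ω (k + 1) = (k + 1) * (Ifun ω (k + 1) r + T ω (k + 1) r) := by
  have h1 : Delta ω (k + 1) = (k + 1) * ∫ t in Ioi (0 : ℝ), ω t * t ^ k := by
    unfold Delta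
    simp
  have h2 : ∫ t in Ioi (0 : ℝ), ω t * t ^ k =
      (∫ t in Ioc 0 r, ω t * t ^ k) + ∫ t in Ioi r, ω t * t ^ k := by
    rw [← Ioc_union_Ioi_eq_Ioi hr.le]
    apply setIntegral_union
    · exact Ioc_disjoint_Ioi le_rfl
    · exact measurableSet_Ioi
    · exact (intMom hmom k).mono_set Ioc_subset_Ioi_self
    · exact (intMom hmom k).mono_set (Ioi_subset_Ioi hr.le)
  have h3 : ∫ t in Ioi r, ω t * t ^ k = T ω (k + 1) r := by
    unfold T
    apply setIntegral_congr_fun measurableSet_Ioi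
    intro t ht
    have ht0 : 0 < t := lt_trans hr ht
    simp only
    rw [pow_succ]
    field_simp
  have h4 : Ifun ω (k + 1) r = ∫ t in Ioc 0 r, ω t * t ^ k := by
    unfold Ifun
    simp
  rw [h1, h2, h3, h4]

lemma Ifun_nonneg (hpos : ∀ t, 0 ≤ t → 0 < ω t) (k : ℕ) (r : ℝ) : 0 ≤ Ifun ω k r := by
  unfold Ifun
  apply setIntegral_nonneg measurableSet_Ioc
  intro t ht
  have := hpos t ht.1.le
  have h2 : 0 < t := ht.1
  positivity

lemma Ifun_le (hanti : AntitoneOn ω (Ici 0)) (hpos : ∀ t, 0 ≤ t → 0 < ω t)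
    (hmom : ∀ k : ℕ, 1 ≤ k → IntegrableOn (fun t => ω t * t ^ (k - 1)) (Ioi 0)) (k : ℕ)
    {r : ℝ} (hr : 0 < r) : Ifun ω (k + 1) r ≤ ω 0 * r ^ (k + 1) := by
  have h5 : ∫ t in Ioc 0 r, ω 0 * t ^ k = ω 0 * (r ^ (k + 1) / (k + 1)) := by
    rw [integral_const_mul, ← intervalIntegral.integral_of_le hr.le, integral_pow]
    simp
  have h6 : Ifun ω (k + 1) r ≤ ω 0 * (r ^ (k + 1) / (k + 1)) := by
    rw [← h5]
    unfold Ifun
    simp only [Nat.add_sub_cancel]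
    apply setIntegral_mono_on
    · exact (intMom hmom k).mono_set Ioc_subset_Ioi_self
    · apply Integrable.const_mul
      exact (continuous_pow k).integrableOn_Ioc
    · exact measurableSet_Ioc
    · intro t ht
      apply mul_le_mul_of_nonneg_right _ (pow_nonneg ht.1.le k)
      exact hanti (mem_Ici.mpr le_rfl) (mem_Ici.mpr ht.1.le) ht.1.le
  refine h6.trans ?_
  apply mul_le_mul_of_nonneg_left _ (hpos 0 le_rfl).le
  apply div_le_self (by positivity)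
  have : (0 : ℝ) ≤ k := Nat.cast_nonneg k
  linarith

lemma Jfun_nonneg (hpos : ∀ t, 0 ≤ t → 0 < ω t) (k : ℕ) {r : ℝ} (hr : 0 < r) : 0 ≤ Jfun ω k r := by
  unfold Jfun
  apply setIntegral_nonneg measurableSet_Ioi
  intro t ht
  have h2 : 0 < t := lt_trans hr ht
  have := hpos t h2.le
  positivity

lemma Lfun_int (hcont : ContinuousOn ω (Ici 0)) (hpos : ∀ t, 0 ≤ t → 0 < ω t)
    (hmom : ∀ k : ℕ, 1 ≤ k → IntegrableOn (fun t => ω t * t ^ (k - 1)) (Ioi 0))
    {r : ℝ} (hr : 0 < r) : IntegrableOn (fun t => ω t * t⁻¹) (Ioi r) := by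
  simpa using intT hcont hpos hmom 0 hr

lemma Jfun_le (hcont : ContinuousOn ω (Ici 0)) (hpos : ∀ t, 0 ≤ t → 0 < ω t)
    (hmom : ∀ k : ℕ, 1 ≤ k → IntegrableOn (fun t => ω t * t ^ (k - 1)) (Ioi 0)) (k : ℕ)
    {r : ℝ} (hr : 0 < r) : r ^ k * Jfun ω k r ≤ Lfun ω r := by
  unfold Jfun Lfun
  rw [← integral_const_mul]
  apply integral_mono_of_nonneg
  · filter_upwards [ae_restrict_mem measurableSet_Ioi] with t ht
    have h2 : 0 < t := lt_trans hr ht
    have := hpos t h2.le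
    simp only [Pi.zero_apply]
    positivity
  · exact Lfun_int hcont hpos hmom hr
  · filter_upwards [ae_restrict_mem measurableSet_Ioi] with t ht
    have h2 : 0 < t := lt_trans hr ht
    have h3 := hpos t h2.le
    have h4 : r ^ k ≤ t ^ k := pow_le_pow_left₀ hr.le (le_of_lt ht) k
    calc r ^ k * (ω t * (t ^ (k + 1))⁻¹) ≤ t ^ k * (ω t * (t ^ (k + 1))⁻¹) := by
          apply mul_le_mul_of_nonneg_right h4 (by positivity)
      _ = ω t * t⁻¹ := by
          rw [pow_succ]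
          field_simp

/-- Bound for the size of `(conj a)^{s k} J_k(|a|)`, for `s = ±1`. -/
lemma conj_bound (hcont : ContinuousOn ω (Ici 0)) (hpos : ∀ t, 0 ≤ t → 0 < ω t)
    (hmom : ∀ k : ℕ, 1 ≤ k → IntegrableOn (fun t => ω t * t ^ (k - 1)) (Ioi 0)) (k : ℕ)
    {s : ℤ} (hs : s = -1 ∨ s = 1) {a : ℂ} (ha : a ≠ 0) :
    ‖(conj a) ^ (s * (k : ℤ))‖ * Jfun ω k ‖a‖ ≤ (max 1 ((‖a‖⁻¹) ^ 2)) ^ k * Lfun ω ‖a‖ := by
  have hr : 0 < ‖a‖ := norm_pos_iff.mpr ha
  have h1 := Jfun_le hcont hpos hmom k hr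
  have hJ := Jfun_nonneg hpos k hr
  rcases hs with rfl | rfl
  · have h2 : ‖(conj a) ^ ((-1 : ℤ) * (k : ℤ))‖ = ((‖a‖⁻¹) ^ 2) ^ k * ‖a‖ ^ k := by
      rw [neg_one_mul, zpow_neg, zpow_natCast, norm_inv, norm_pow, Complex.norm_conj, ← mul_pow]
      have : (‖a‖⁻¹) ^ 2 * ‖a‖ = ‖a‖⁻¹ := by field_simp
      rw [this, inv_pow]
    rw [h2, mul_assoc]
    apply mul_le_mul _ h1 (by positivity) (by positivity)
    exact pow_le_pow_left₀ (by positivity) (le_max_right _ _) k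
  · have h2 : ‖(conj a) ^ ((1 : ℤ) * (k : ℤ))‖ = ‖a‖ ^ k := by
      rw [one_mul, zpow_natCast, norm_pow, Complex.norm_conj]
    rw [h2]
    have hL : 0 ≤ Lfun ω ‖a‖ := le_trans (by positivity) h1
    refine h1.trans ?_
    apply le_mul_of_one_le_left hL
    exact one_le_pow₀ (le_max_left _ _)

lemma Lfun_pos (hcont : ContinuousOn ω (Ici 0)) (hpos : ∀ t, 0 ≤ t → 0 < ω t)
    (hmom : ∀ k : ℕ, 1 ≤ k → IntegrableOn (fun t => ω t * t ^ (k - 1)) (Ioi 0))
    {r : ℝ} (hr : 0 < r) : 0 < Lfun ω r := by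
  rw [← T_zero]
  exact T_pos hcont hpos hmom 0 hr

lemma Lfun_anti (hcont : ContinuousOn ω (Ici 0)) (hpos : ∀ t, 0 ≤ t → 0 < ω t)
    (hmom : ∀ k : ℕ, 1 ≤ k → IntegrableOn (fun t => ω t * t ^ (k - 1)) (Ioi 0))
    {r s : ℝ} (hr : 0 < r) (hrs : r ≤ s) : Lfun ω s ≤ Lfun ω r := by
  unfold Lfun
  apply setIntegral_mono_set (Lfun_int hcont hpos hmom hr)
  · filter_upwards [ae_restrict_mem measurableSet_Ioi] with t ht
    have h2 : 0 < t := lt_trans hr ht
    have := hpos t h2.le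
    positivity
  · exact (Ioi_subset_Ioi hrs).eventuallyLE

lemma Wterm_bound {s : ℤ} (hs : s = -1 ∨ s = 1) (hcont : ContinuousOn ω (Ici 0)) (hanti : AntitoneOn ω (Ici 0))
    (hpos : ∀ t, 0 ≤ t → 0 < ω t)
    (hmom : ∀ k : ℕ, 1 ≤ k → IntegrableOn (fun t => ω t * t ^ (k - 1)) (Ioi 0))
    {a : ℂ} (ha : a ≠ 0) (R : ℝ) (hR : 0 ≤ R) (k : ℕ) (z : ℂ) (hz : ‖z‖ ≤ R) :
    ‖Wterm s ω z a (k + 1)‖ ≤ (ω 0 + Lfun ω ‖a‖) /
      ω (2 * (max 1 ((‖a‖⁻¹) ^ 2) * R + 1)) * (1 / 2) ^ (k + 1) := by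
  set m : ℝ := max 1 ((‖a‖⁻¹) ^ 2) with hm
  have hm1 : 1 ≤ m := le_max_left _ _
  set l : ℝ := 2 * (m * R + 1) with hl
  have hl0 : 0 < l := by positivity
  have hr : 0 < ‖a‖ := norm_pos_iff.mpr ha
  have hD := Delta_ge' hcont hanti hpos hmom k hl0
  have hωl := hpos l hl0.le
  have hω0 := hpos 0 le_rfl
  have hL := Lfun_pos hcont hpos hmom hr
  have hDpos := Delta_pos hcont hanti hpos hmom k
  have h1 : ‖(a ^ (k + 1))⁻¹ * (Ifun ω (k + 1) ‖a‖ : ℝ)‖ ≤ ω 0 := by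
    rw [norm_mul, norm_inv, norm_pow, Complex.norm_real, Real.norm_of_nonneg
      (Ifun_nonneg hpos _ _), inv_mul_le_iff₀ (by positivity)]
    have := Ifun_le hanti hpos hmom k hr
    linarith
  have h2 : ‖(conj a) ^ (s * ((k + 1 : ℕ) : ℤ)) * (Jfun ω (k + 1) ‖a‖ : ℝ)‖ ≤ m ^ (k + 1) * Lfun ω ‖a‖ := by
    rw [norm_mul, Complex.norm_real, Real.norm_of_nonneg (Jfun_nonneg hpos _ hr)]
    exact conj_bound hcont hpos hmom (k + 1) hs ha
  have h3 : ‖(a ^ (k + 1))⁻¹ * (Ifun ω (k + 1) ‖a‖ : ℝ) -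
      (conj a) ^ (s * ((k + 1 : ℕ) : ℤ)) * (Jfun ω (k + 1) ‖a‖ : ℝ)‖ ≤ m ^ (k + 1) * (ω 0 + Lfun ω ‖a‖) := by
    refine (norm_sub_le _ _).trans ?_
    have h4 : ω 0 ≤ m ^ (k + 1) * ω 0 := le_mul_of_one_le_left hω0.le (one_le_pow₀ hm1)
    rw [mul_add]
    linarith
  have h5 : ‖z ^ (k + 1) / ((Delta ω (k + 1) : ℝ) : ℂ)‖ ≤ R ^ (k + 1) / (l ^ (k + 1) * ω l) := by
    rw [norm_div, norm_pow, Complex.norm_real, Real.norm_of_nonneg hDpos.le]
    apply div_le_div₀ (by positivity) (pow_le_pow_left₀ (norm_nonneg _) hz _) (by positivity) hD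
  unfold Wterm
  rw [norm_mul]
  calc ‖(a ^ (k + 1))⁻¹ * (Ifun ω (k + 1) ‖a‖ : ℝ) -
      (conj a) ^ (s * ((k + 1 : ℕ) : ℤ)) * (Jfun ω (k + 1) ‖a‖ : ℝ)‖ * ‖z ^ (k + 1) / ((Delta ω (k + 1) : ℝ) : ℂ)‖
      ≤ (m ^ (k + 1) * (ω 0 + Lfun ω ‖a‖)) * (R ^ (k + 1) / (l ^ (k + 1) * ω l)) := by
        apply mul_le_mul h3 h5 (norm_nonneg _) (by positivity)
    _ = (ω 0 + Lfun ω ‖a‖) / ω l * (m * R / l) ^ (k + 1) := by
        rw [div_pow, mul_pow]
        field_simp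
        rw [mul_pow]
    _ ≤ (ω 0 + Lfun ω ‖a‖) / ω l * (1 / 2) ^ (k + 1) := by
        apply mul_le_mul_of_nonneg_left _ (by positivity)
        apply pow_le_pow_left₀ (by positivity)
        rw [div_le_div_iff₀ hl0 (by norm_num)]
        rw [hl]
        nlinarith

lemma summable_half (C : ℝ) : Summable (fun k : ℕ => C * (1 / 2 : ℝ) ^ (k + 1)) := by
  apply Summable.mul_left
  exact (summable_nat_add_iff 1).mpr (summable_geometric_of_lt_one (by norm_num) (by norm_num))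

lemma Wterm_summable {s : ℤ} (hs : s = -1 ∨ s = 1) (hcont : ContinuousOn ω (Ici 0)) (hanti : AntitoneOn ω (Ici 0))
    (hpos : ∀ t, 0 ≤ t → 0 < ω t)
    (hmom : ∀ k : ℕ, 1 ≤ k → IntegrableOn (fun t => ω t * t ^ (k - 1)) (Ioi 0))
    {a : ℂ} (ha : a ≠ 0) (z : ℂ) : Summable (fun k => ‖Wterm s ω z a (k + 1)‖) :=
  Summable.of_nonneg_of_le (fun _ => norm_nonneg _)
    (fun k => Wterm_bound hs hcont hanti hpos hmom ha ‖z‖ (norm_nonneg _) k z le_rfl)
    (summable_half _)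

lemma W_differentiable {s : ℤ} (hs : s = -1 ∨ s = 1) (hcont : ContinuousOn ω (Ici 0)) (hanti : AntitoneOn ω (Ici 0))
    (hpos : ∀ t, 0 ≤ t → 0 < ω t)
    (hmom : ∀ k : ℕ, 1 ≤ k → IntegrableOn (fun t => ω t * t ^ (k - 1)) (Ioi 0))
    {a : ℂ} (ha : a ≠ 0) : Differentiable ℂ (fun z => W s ω z a) := by
  unfold W
  apply Differentiable.const_sub
  intro z
  have h1 : DifferentiableOn ℂ (fun z => ∑' k : ℕ, Wterm s ω z a (k + 1))
      (Metric.ball 0 (‖z‖ + 1)) := by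
    apply differentiableOn_tsum_of_summable_norm (summable_half _) _ Metric.isOpen_ball
    · intro k w hw
      exact Wterm_bound hs hcont hanti hpos hmom ha (‖z‖ + 1) (by positivity) k w
        (by simpa using (Metric.mem_ball.mp hw).le)
    · intro k
      unfold Wterm
      fun_prop
  exact h1.differentiableAt (Metric.isOpen_ball.mem_nhds (by simp))

lemma A_differentiable {s : ℤ} (hs : s = -1 ∨ s = 1) (hcont : ContinuousOn ω (Ici 0)) (hanti : AntitoneOn ω (Ici 0))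
    (hpos : ∀ t, 0 ≤ t → 0 < ω t)
    (hmom : ∀ k : ℕ, 1 ≤ k → IntegrableOn (fun t => ω t * t ^ (k - 1)) (Ioi 0))
    {a : ℂ} (ha : a ≠ 0) : Differentiable ℂ (fun z => A s ω z a) := by
  have h := W_differentiable hs hcont hanti hpos hmom ha
  unfold A
  fun_prop

/-- The main estimate: `|A_ω(z; a) - 1| ≤ C L(|a|)` for `|z| ≤ R` and large `|a|`. -/
lemma A_bound {s : ℤ} (hs : s = -1 ∨ s = 1) (hcont : ContinuousOn ω (Ici 0)) (hanti : AntitoneOn ω (Ici 0))
    (hpos : ∀ t, 0 ≤ t → 0 < ω t)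
    (hmom : ∀ k : ℕ, 1 ≤ k → IntegrableOn (fun t => ω t * t ^ (k - 1)) (Ioi 0))
    {t₀ : ℝ} (ht₀ : 0 ≤ t₀)
    {C : ℝ} (hC : RatioBound ω t₀ C)
    {R l : ℝ} (hR : 0 ≤ R) (hl : t₀ < l) (hl1 : 1 ≤ l) (hRl : 2 * R ≤ l) (z a : ℂ)
    (hz : ‖z‖ ≤ R) (ha : l ≤ ‖a‖) (hsmall : (1 + 2 * C ^ 2 / ω l) * Lfun ω ‖a‖ ≤ 1) :
    ‖A s ω z a - 1‖ ≤ 2 * ((1 + 2 * C ^ 2 / ω l) * Lfun ω ‖a‖) := by
  have hl0 : 0 < l := by linarith
  set r : ℝ := ‖a‖ with hr
  have hr0 : 0 < r := by linarith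
  have ha0 : a ≠ 0 := norm_pos_iff.mp hr0
  have hωl := hpos l hl0.le
  have hL := Lfun_pos hcont hpos hmom hr0
  have hza : ‖z / a‖ < 1 := by
    rw [norm_div, div_lt_one hr0]
    linarith
  have hne : 1 - z / a ≠ 0 := by
    intro h0
    have : z / a = 1 := by
      have := sub_eq_zero.mp h0
      exact this.symm
    rw [this, norm_one] at hza
    exact lt_irrefl _ hza
  have hmax : max 1 ((‖a‖⁻¹) ^ 2) = 1 := by
    apply max_eq_left
    apply pow_le_one₀ (by positivity)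
    apply inv_le_one_of_one_le₀
    linarith
  have hs1 := hasSum_taylorSeries_neg_log' hza
  have hs2 : HasSum (fun k => Wterm s ω z a (k + 1)) (∑' k : ℕ, Wterm s ω z a (k + 1)) :=
    (Wterm_summable hs hcont hanti hpos hmom ha0 z).of_norm.hasSum
  have hs3 := hs1.sub hs2
  have hterm : ∀ n : ℕ, ‖(z / a) ^ (n + 1) / (n + 1) - Wterm s ω z a (n + 1)‖ ≤
      2 * C ^ 2 * (Lfun ω r / ω l) * (1 / 2) ^ (n + 1) := by
    intro n
    have hDpos := Delta_pos hcont hanti hpos hmom n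
    have hDC : ((Delta ω (n + 1) : ℝ) : ℂ) ≠ 0 := by exact_mod_cast hDpos.ne'
    have hDeq := Delta_eq hmom n hr0
    have hn1 : ((n : ℂ) + 1) ≠ 0 := by exact_mod_cast Nat.succ_ne_zero n
    have h1 : (z / a) ^ (n + 1) / (n + 1) - Wterm s ω z a (n + 1) =
        z ^ (n + 1) * ((T ω (n + 1) r : ℝ) / (a ^ (n + 1) * (Delta ω (n + 1) : ℝ))) +
        (conj a) ^ (s * ((n + 1 : ℕ) : ℤ)) * (Jfun ω (n + 1) r : ℝ) * (z ^ (n + 1) / (Delta ω (n + 1) : ℝ)) := by
      have hDeqC : ((Delta ω (n + 1) : ℝ) : ℂ) =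
          (n + 1) * ((Ifun ω (n + 1) r : ℝ) + (T ω (n + 1) r : ℝ)) := by
        rw [hDeq]; push_cast; ring
      have h2 : (1 : ℂ) / (n + 1) =
          ((Ifun ω (n + 1) r : ℝ) + (T ω (n + 1) r : ℝ)) / ((Delta ω (n + 1) : ℝ) : ℂ) := by
        rw [div_eq_div_iff hn1 hDC, hDeqC]
        ring
      have h3 : (z / a) ^ (n + 1) / (n + 1) = (z / a) ^ (n + 1) *
          (((Ifun ω (n + 1) r : ℝ) + (T ω (n + 1) r : ℝ)) / ((Delta ω (n + 1) : ℝ) : ℂ)) := by
        rw [← h2]; ring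
      rw [h3]
      unfold Wterm
      rw [← hr, div_pow]
      field_simp
      ring
    rw [h1]
    have hkey := key hcont hanti hpos hmom ht₀ hC n hl ha
    rw [T_zero] at hkey
    have hTpos := T_pos hcont hpos hmom (n + 1) hr0
    have hRn : ‖z‖ ^ (n + 1) ≤ R ^ (n + 1) := pow_le_pow_left₀ (norm_nonneg _) hz _
    have hRl' : R ^ (n + 1) / l ^ (n + 1) ≤ (1 / 2) ^ (n + 1) := by
      rw [← div_pow]
      apply pow_le_pow_left₀ (by positivity)
      rw [div_le_div_iff₀ hl0 (by norm_num)]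
      linarith
    have hC2 : 1 ≤ C ^ 2 := one_le_pow₀ (hC.one_le hpos ht₀)
    have h4 : ‖z ^ (n + 1) * ((T ω (n + 1) r : ℝ) / (a ^ (n + 1) * (Delta ω (n + 1) : ℝ)))‖ ≤
        C ^ 2 * (Lfun ω r / ω l * (1 / 2) ^ (n + 1)) := by
      rw [norm_mul, norm_div, norm_mul, norm_pow, norm_pow, Complex.norm_real, Complex.norm_real,
        Real.norm_of_nonneg hTpos.le, Real.norm_of_nonneg hDpos.le, ← hr]
      have h5 : T ω (n + 1) r / (r ^ (n + 1) * Delta ω (n + 1)) ≤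
          C ^ 2 * Lfun ω r / (l ^ (n + 1) * ω l) := by
        rw [div_le_div_iff₀ (by positivity) (by positivity)]
        calc T ω (n + 1) r * (l ^ (n + 1) * ω l) = l ^ (n + 1) * ω l * T ω (n + 1) r := by ring
          _ ≤ C ^ 2 * (r ^ (n + 1) * Delta ω (n + 1) * Lfun ω r) := hkey
          _ = C ^ 2 * Lfun ω r * (r ^ (n + 1) * Delta ω (n + 1)) := by ring
      calc ‖z‖ ^ (n + 1) * (T ω (n + 1) r / (r ^ (n + 1) * Delta ω (n + 1)))
          ≤ R ^ (n + 1) * (C ^ 2 * Lfun ω r / (l ^ (n + 1) * ω l)) := by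
            apply mul_le_mul hRn h5 (by positivity) (by positivity)
        _ = C ^ 2 * (Lfun ω r / ω l * (R ^ (n + 1) / l ^ (n + 1))) := by field_simp
        _ ≤ _ := by
            apply mul_le_mul_of_nonneg_left _ (by positivity)
            apply mul_le_mul_of_nonneg_left hRl' (by positivity)
    have h6 : ‖(conj a) ^ (s * ((n + 1 : ℕ) : ℤ)) * (Jfun ω (n + 1) r : ℝ) *
        (z ^ (n + 1) / (Delta ω (n + 1) : ℝ))‖ ≤ Lfun ω r / ω l * (1 / 2) ^ (n + 1) := by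
      rw [norm_mul, norm_mul, norm_div, norm_pow, Complex.norm_real, Complex.norm_real,
        Real.norm_of_nonneg (Jfun_nonneg hpos _ hr0), Real.norm_of_nonneg hDpos.le]
      have h7 := conj_bound hcont hpos hmom (n + 1) hs ha0
      rw [hmax, one_pow, one_mul, ← hr] at h7
      have h8 := Delta_ge' hcont hanti hpos hmom n hl0
      calc ‖(conj a) ^ (s * ((n + 1 : ℕ) : ℤ))‖ * Jfun ω (n + 1) r * (‖z‖ ^ (n + 1) / Delta ω (n + 1))
          ≤ Lfun ω r * (R ^ (n + 1) / (l ^ (n + 1) * ω l)) := by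
            apply mul_le_mul h7 _ (by positivity) hL.le
            apply div_le_div₀ (by positivity) hRn (by positivity) h8
        _ = Lfun ω r / ω l * (R ^ (n + 1) / l ^ (n + 1)) := by field_simp
        _ ≤ _ := by
            apply mul_le_mul_of_nonneg_left hRl' (by positivity)
    refine (norm_add_le _ _).trans ?_
    have h9 : 1 * (Lfun ω r / ω l * (1 / 2 : ℝ) ^ (n + 1)) ≤
        C ^ 2 * (Lfun ω r / ω l * (1 / 2) ^ (n + 1)) :=
      mul_le_mul_of_nonneg_right hC2 (by positivity)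
    linarith
  have hsumhalf : HasSum (fun n : ℕ => 2 * C ^ 2 * (Lfun ω r / ω l) * (1 / 2 : ℝ) ^ (n + 1))
      (2 * C ^ 2 * (Lfun ω r / ω l)) := by
    have h1 : HasSum (fun n : ℕ => (1 / 2 : ℝ) ^ n) 2 := by
      have := hasSum_geometric_of_lt_one (r := (1 / 2 : ℝ)) (by norm_num) (by norm_num)
      norm_num at this
      simpa using this
    have h2 : HasSum (fun n : ℕ => (1 / 2 : ℝ) ^ (n + 1)) 1 := by
      have := h1.mul_right (1 / 2)
      simp only [← pow_succ] at this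
      norm_num at this
      simpa using this
    simpa using h2.mul_left (2 * C ^ 2 * (Lfun ω r / ω l))
  have hnorm : ‖-log (1 - z / a) - ∑' k : ℕ, Wterm s ω z a (k + 1)‖ ≤ 2 * C ^ 2 * (Lfun ω r / ω l) := by
    rw [← hs3.tsum_eq]
    exact tsum_of_norm_bounded hsumhalf hterm
  set Lam : ℂ := log (1 - z / a) - W s ω z a with hLam
  have hA : A s ω z a = Complex.exp Lam := by
    unfold A
    rw [hLam, Complex.exp_sub, Complex.exp_log hne, Complex.exp_neg]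
    rfl
  have hLamnorm : ‖Lam‖ ≤ (1 + 2 * C ^ 2 / ω l) * Lfun ω r := by
    have h1 : Lam = -((Lfun ω r : ℝ) : ℂ) -
        (-log (1 - z / a) - ∑' k : ℕ, Wterm s ω z a (k + 1)) := by
      rw [hLam]
      unfold W
      rw [← hr]
      ring
    rw [h1]
    refine (norm_sub_le _ _).trans ?_
    rw [norm_neg, Complex.norm_real, Real.norm_of_nonneg hL.le]
    calc Lfun ω r + ‖-log (1 - z / a) - ∑' k : ℕ, Wterm s ω z a (k + 1)‖
        ≤ Lfun ω r + 2 * C ^ 2 * (Lfun ω r / ω l) := by linarith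
      _ = (1 + 2 * C ^ 2 / ω l) * Lfun ω r := by ring
  rw [hA]
  refine (Complex.norm_exp_sub_one_le (hLamnorm.trans hsmall)).trans ?_
  linarith

end aux

end Pool.Agent.Y767.PI
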